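import Pool.Agent.MP_5c6cc8_ag.Klt

namespace Pool.Agent.Results.MP_5c6cc8_ag.NotEffective

open Pool.Agent.MP_5c6cc8_ag

/-- There is an lc-trivial (even klt-trivial) fibration `f : (X, Δ) → Y` of relative dimension `1`
satisfying (iii) with `r = 5` such that for no integer `I > 0` there is a birational morphism
`Y' → Y` such that the moduli b-divisor `M` descends to `Y'`, `I M_{Y'}` is Cartier and
`|I M_{Y'}|` is base point free. -/
theorem result : ∃ F : LCTrivialFibration 1 5, F.IsKlt ∧
    ∀ ω' : Form F.Y.K F.n, FormOf.IsNonzero ω' → ∀ I : ℕ, 0 < I → IsEmpty (GoodModel F ω' I) :=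
  main_klt

end Pool.Agent.Results.MP_5c6cc8_ag.NotEffective
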